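import Pool.Agent.TH935.LF12
import Pool.Agent.Q56.TF.Typ

/-!
# Prime solutions of `a p - b q = c` for all constants `c` in windows around almost all members of a real sequence

The constants are all the integers at a distance of at most `log ^ A N` from `r m`, for almost all `m ≤ x`, where
`r 1, ..., r x` is an arbitrary family of real numbers of nearly minimal energy; for instance the (real) values
`β + κ f m` of a polynomial `f` with integer coefficients, with arbitrary real `κ ≠ 0` and `β`, or of a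
generalised polynomial `f t = ∑ w_y t ^ y` whose largest exponent is greater than `1` and not an integer
(`f t = t ^ c`: the sequences of Piatetski-Shapiro). The coefficients `a`, `b` are arbitrary.

From Mathlib: `n.primeFactors`: the set of the prime divisors of `n`; `Polynomial ℤ`, `f.eval m`: polynomials and
their values; `IsCoprime`; `Finset.Ioc y₁ y₂`: the integers `q` with `y₁ < q ≤ y₂`. The asymptotic formula for
families of integers is from the starting files (`Pool.Agent.TH935.LF.fam_lin`).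
-/

set_option autoImplicit false

namespace Pool.Agent.Results.MP_bf63dc_nt.ConstantsNearRealSequences

open Finset

open Classical in
/-- The energy of order `p` of the family of real numbers `r 1, ..., r x`: the number of the pairs `v`, `w` of
`p`-tuples of elements of `{1, ..., x}` such that `r (v 1) + ... + r (v p)` and `r (w 1) + ... + r (w p)` differ
by at most `1`. -/
noncomputable def energy (p x : ℕ) (r : ℕ → ℝ) : ℕ :=
  (((Fintype.piFinset fun _ : Fin p => Icc 1 x) ×ˢ (Fintype.piFinset fun _ : Fin p => Icc 1 x)).filter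
    (fun q => |∑ i, r (q.1 i) - ∑ i, r (q.2 i)| ≤ 1)).card

/-- The twin prime constant `C₂ = ∏_{p > 2} (1 - 1 / (p - 1) ^ 2)`: the infimum of the decreasing partial products
over the primes `3 ≤ p ≤ z`. -/
noncomputable def C₂ : ℝ := ⨅ z : ℕ, ∏ p ∈ (Icc 3 z).filter Nat.Prime, (1 - 1 / ((p : ℝ) - 1) ^ 2)

/-- The singular series `2 C₂ ∏_{p ∣ n, p > 2} (p - 1) / (p - 2)`. -/
noncomputable def sing (n : ℕ) : ℝ :=
  2 * C₂ * ∏ p ∈ n.primeFactors.filter (fun p => 2 < p), ((p : ℝ) - 1) / ((p : ℝ) - 2)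

open Classical in
/-- The number of the prime solutions `(p, q)` of `a p - b q = c` with `y₁ < q ≤ y₂`. -/
noncomputable def solutions (a b : ℕ) (c : ℤ) (y₁ y₂ : ℕ) : ℕ :=
  ((Ioc y₁ y₂).filter (fun q : ℕ => q.Prime ∧ ∃ p : ℕ, p.Prime ∧ (a : ℤ) * p - b * q = c)).card

/-- The prediction of Hardy and Littlewood, with `log ^ 2 N` instead of the product of the logarithms of `p` and
`q`. -/
noncomputable def expected (N a b : ℕ) (c : ℤ) (y₁ y₂ : ℕ) : ℝ :=
  sing ((a : ℤ) * b * c).natAbs * ((y₂ : ℝ) - y₁) / (a * Real.log N ^ 2)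

/-- The constant `c` is good: for all `a, b ≤ log ^ D N` such that `a`, `b`, `c` are pairwise coprime and not all
odd, and for all the intervals `(y₁, y₂]` with `y₂ ≤ B N` and of length at least `N / log ^ V N` on which
`c + b q` is positive, the number of the prime solutions of `a p - b q = c` with `y₁ < q ≤ y₂` is equal to the
prediction up to a relative error of at most `ε`. -/
def Good (ε : ℝ) (B V D N : ℕ) (c : ℤ) : Prop :=
  ∀ a b : ℕ, 1 ≤ a → (a : ℝ) ≤ Real.log N ^ D → 1 ≤ b → (b : ℝ) ≤ Real.log N ^ D →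
    IsCoprime (a : ℤ) b → IsCoprime (a : ℤ) c → IsCoprime (b : ℤ) c → Even ((a : ℤ) * b * c) →
    ∀ y₁ y₂ : ℕ, y₁ < y₂ → y₂ ≤ B * N → (N : ℝ) / Real.log N ^ V ≤ (y₂ : ℝ) - y₁ → 0 < c + b * ((y₁ : ℤ) + 1) →
      |(solutions a b c y₁ y₂ : ℝ) - expected N a b c y₁ y₂| ≤ ε * expected N a b c y₁ y₂

open Classical in
/-- The number of the `m` in `{1, ..., x}` for which not all integers `c ≠ 0` at a distance of at most `w` from
`r m` have the property `G`. -/
noncomputable def exceptions (x : ℕ) (r : ℕ → ℝ) (w : ℝ) (G : ℤ → Prop) : ℕ :=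
  ((Icc 1 x).filter (fun m => ∃ c : ℤ, c ≠ 0 ∧ |(c : ℝ) - r m| ≤ w ∧ ¬ G c)).card

/-- The bound at scale `N` for the windows around the `r m`, `m ≤ x`: for all `m ≤ x` with at most `x / log ^ U N`
exceptions all integers `c ≠ 0` with `|c - r m| ≤ log ^ A N` are good constants. -/
def Holds (ε : ℝ) (A B V D U N x : ℕ) (r : ℕ → ℝ) : Prop :=
  (exceptions x r (Real.log N ^ A) (Good ε B V D N) : ℝ) ≤ x / Real.log N ^ U

/-- The sequence `f`, of growth `x ^ e`, has the property at all large scales: for all `x` with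
`N / log ^ C N ≤ x ^ e ≤ B N` and all translates `β + f m`, `|β| ≤ B N`. -/
def Sequence (ε : ℝ) (A B C V D U : ℕ) (f : ℕ → ℝ) (e : ℝ) : Prop :=
  ∃ N₀ : ℕ, ∀ N : ℕ, N₀ ≤ N → ∀ x : ℕ, (x : ℝ) ^ e ≤ B * N → (N : ℝ) ≤ Real.log N ^ C * (x : ℝ) ^ e →
    ∀ β : ℝ, |β| ≤ B * N → Holds ε A B V D U N x (fun m => β + f m)

lemma solutions_eq (a b : ℕ) (c : ℤ) (y₁ y₂ : ℕ) :
    solutions a b c y₁ y₂ = Pool.Agent.TH935.LF.cn a (b : ℤ) c y₁ y₂ := by
  classical
  unfold solutions Pool.Agent.TH935.LF.cn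
  congr 1
  apply filter_congr
  intro q _
  constructor
  · rintro ⟨h1, p, h2, h3⟩
    exact ⟨h1, p, h2, by linarith⟩
  · rintro ⟨h1, p, h2, h3⟩
    exact ⟨h1, p, h2, by linarith⟩

lemma good_of {ε : ℝ} {B B' V D N : ℕ} (hB : B ≤ B') {c : ℤ}
    (h : Pool.Agent.TH935.LF.HW ε V B' D N c) : Good ε B V D N c := by
  intro a b ha haL hb hbL hab hac hbc h2 y₁ y₂ h12 hy2 hΔ hpos
  have h3 := h a (b : ℤ) ha haL (by exact_mod_cast (by omega : b ≠ 0)) (by simpa using hbL) hab hac hbc h2.two_dvd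
    y₁ y₂ h12 (hy2.trans (Nat.mul_le_mul_right _ hB)) hΔ (by
      intro q hq
      have hq1 : (y₁ : ℤ) + 1 ≤ q := by exact_mod_cast (mem_Ioc.1 hq).1
      have hb0 : (0 : ℤ) ≤ b := Nat.cast_nonneg _
      have := mul_le_mul_of_nonneg_left hq1 hb0
      linarith)
  rw [← solutions_eq] at h3
  exact h3

/-- families of constants -/
lemma general (p B C V D U : ℕ) (ε : ℝ) (hε : 0 < ε) (hε1 : ε ≤ 1 / 2) :
    ∃ N₀ : ℕ, ∀ N : ℕ, N₀ ≤ N → ∀ (ι : Type) [Fintype ι] (v : ι → ℤ), (∀ i, |v i| ≤ B * N) →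
      (Pool.Agent.TH935.GF.En p v : ℝ) * N ≤ Real.log N ^ C * (Fintype.card ι : ℝ) ^ (2 * p) →
      ∀ S : Finset ι, (∀ i ∈ S, v i ≠ 0 ∧ ¬ Pool.Agent.TH935.LF.HW ε V B D N (v i)) →
      (S.card : ℝ) ≤ Fintype.card ι / Real.log N ^ U :=
  Pool.Agent.TH935.LF.transferZ p B C U (fun N c => Pool.Agent.TH935.LF.HW ε V B D N c)
    (fun C U => Pool.Agent.TH935.LF.fam_lin p V B C D U ε hε hε1)

lemma holds_of (A B B' V D U p C' : ℕ) (hBB : B ≤ B') (ε : ℝ) (hε : 0 < ε) (hε1 : ε ≤ 1 / 2) :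
    ∃ N₀ : ℕ, ∀ N : ℕ, N₀ ≤ N → ∀ (x : ℕ) (r : ℕ → ℝ), Pool.Agent.Q56.TF.Near A p B' C' N x r →
      Holds ε A B V D U N x r := by
  classical
  obtain ⟨N₁, h1⟩ := general p B' C' V D U ε hε hε1
  refine ⟨N₁, fun N hN x r hm => ?_⟩
  refine Pool.Agent.Q56.TF.near_types hm (Q := fun c => c ≠ 0 ∧ ¬ Pool.Agent.TH935.LF.HW ε V B' D N c)
    (fun ι _ v hv hE S hS => h1 N hN ι v hv hE S hS) _ (filter_subset _ _) ?_
  intro m hm
  obtain ⟨_, c, hc0, hc1, hc2⟩ := mem_filter.1 hm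
  exact ⟨c, hc1, hc0, fun h => hc2 (good_of hBB h)⟩

lemma holds_mono {ε ε' : ℝ} (h : ε' ≤ ε) {A B V D U N x : ℕ} {r : ℕ → ℝ} (_ : 3 ≤ N)
    (hh : Holds ε' A B V D U N x r) : Holds ε A B V D U N x r := by
  classical
  unfold Holds exceptions at *
  refine le_trans ?_ hh
  apply Nat.cast_le.2
  apply card_le_card
  intro m hm
  rw [mem_filter] at hm ⊢
  obtain ⟨h1, c, h2, h3, h4⟩ := hm
  refine ⟨h1, c, h2, h3, fun h5 => h4 ?_⟩
  intro a b ha haL hb hbL hab hac hbc h2 y₁ y₂ h12 hy2 hΔ hpos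
  refine (h5 a b ha haL hb hbL hab hac hbc h2 y₁ y₂ h12 hy2 hΔ hpos).trans ?_
  apply mul_le_mul_of_nonneg_right h
  unfold expected
  have h6 : 0 ≤ sing ((a : ℤ) * b * c).natAbs := by
    have h7 : sing ((a : ℤ) * b * c).natAbs = Pool.Agent.H560R3.GB.sing ((a : ℤ) * b * c).natAbs := rfl
    rw [h7]
    exact zero_le_one.trans (Pool.Agent.W93.GB.one_le_sing _)
  have h8 : (0 : ℝ) ≤ (y₂ : ℝ) - y₁ := by
    have : (y₁ : ℝ) ≤ y₂ := by exact_mod_cast h12.le
    linarith
  positivity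

lemma sequence_of {f : ℕ → ℝ} {e : ℝ} (h : Pool.Agent.Q56.TF.Base f e) (he : 1 ≤ e) (A B C V D U : ℕ) (ε : ℝ)
    (hε : 0 < ε) : Sequence ε A B C V D U f e := by
  obtain ⟨p, B', C', N₀, h1⟩ := Pool.Agent.Q56.TF.near_base h he A B C
  obtain ⟨N₁, h2⟩ := holds_of A B (B + B') V D U p C' (by omega) (min ε (1 / 2)) (lt_min hε (by norm_num))
    (min_le_right _ _)
  exact ⟨N₀ + N₁ + 3, fun N hN x hx1 hx2 β hβ => holds_mono (min_le_left _ _) (by omega)
    (h2 N (by omega) x _ ((h1 N (by omega) x hx1 hx2 β hβ).mono (by omega)))⟩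

/-- Let `A`, `B`, `C`, `V`, `D`, `U` and `ε > 0` be fixed.

* For every `p` the following holds for all large `N`. Let `r 1, ..., r x` be an arbitrary family of real numbers in
  `[-B N, B N]` with an energy of order `p` of at most `log ^ C N` times `x ^ (2 p) / N` (the minimal possible order
  of magnitude). For all `m ≤ x` with at most `x / log ^ U N` exceptions, ALL integers `c ≠ 0` with
  `|c - r m| ≤ log ^ A N` and ALL integers `a, b` between `1` and `log ^ D N`, such that `a`, `b`, `c` are pairwise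
  coprime and not all odd, satisfy the formula of Hardy and Littlewood: in every interval `(y₁, y₂]` with
  `y₂ ≤ B N` and of length at least `N / log ^ V N` on which `c + b q > 0`, the number of the solutions of
  `a p - b q = c` in primes `p` and `q`, `y₁ < q ≤ y₂`, is `𝔖(a b c) (y₂ - y₁) / (a log ^ 2 N)` up to a relative
  error of at most `ε`.
* This holds for `r m = β + κ f m`, `m ≤ x`, where `f` is a fixed nonconstant polynomial with integer
  coefficients, of degree `d`, `κ ≠ 0` is a fixed real number, `β` is any real number with `|β| ≤ B N`, and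
  `N / log ^ C N ≤ x ^ d ≤ B N`.
* This holds for `r m = β + ∑ w_y m ^ y` (a sum over a finite set `F` of real exponents `y`), if the largest
  exponent `e` is greater than `1` and not an integer, `w_e ≠ 0`, `|β| ≤ B N` and `N / log ^ C N ≤ x ^ e ≤ B N`; for
  instance for `r m = β + m ^ e`. -/
theorem result (A B C V D U : ℕ) (ε : ℝ) (hε : 0 < ε) :
    (∀ p : ℕ, ∃ N₀ : ℕ, ∀ N : ℕ, N₀ ≤ N → ∀ (x : ℕ) (r : ℕ → ℝ), (∀ m ∈ Icc 1 x, |r m| ≤ B * N) →
      (energy p x r : ℝ) * N ≤ Real.log N ^ C * (x : ℝ) ^ (2 * p) → Holds ε A B V D U N x r) ∧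
    (∀ f : Polynomial ℤ, 1 ≤ f.natDegree → ∀ κ : ℝ, κ ≠ 0 →
      Sequence ε A B C V D U (fun m => κ * ((f.eval (m : ℤ) : ℤ) : ℝ)) f.natDegree) ∧
    (∀ (F : Finset ℝ) (w : ℝ → ℝ) (e : ℝ), e ∈ F → (∀ y ∈ F, y ≤ e) → w e ≠ 0 → 1 < e → (∀ k : ℕ, e ≠ k) →
      Sequence ε A B C V D U (fun m => ∑ y ∈ F, w y * (m : ℝ) ^ y) e) := by
  classical
  refine ⟨fun p => ?_, fun f hd κ hκ => ?_, fun F w e heF hmax hwe he hen => ?_⟩
  · obtain ⟨B', C', N₀, h1⟩ := Pool.Agent.Q56.TF.near_gen p A B C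
    obtain ⟨N₁, h2⟩ := holds_of A B (B + B') V D U p C' (by omega) (min ε (1 / 2)) (lt_min hε (by norm_num))
      (min_le_right _ _)
    exact ⟨N₀ + N₁ + 3, fun N hN x r hr hE => holds_mono (min_le_left _ _) (by omega)
      (h2 N (by omega) x _ ((h1 N (by omega) x r hr hE).mono (by omega)))⟩
  · exact sequence_of ((Pool.Agent.Q56.TF.base_poly f hd).dil hκ) (by exact_mod_cast hd) A B C V D U ε hε
  · exact sequence_of (Pool.Agent.Q56.TF.base_gp F w e heF hmax hwe he hen) he.le A B C V D U ε hε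

end Pool.Agent.Results.MP_bf63dc_nt.ConstantsNearRealSequences
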