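import Pool.Agent.Q26.PD.LF7

/-!
# The equations `a p - b q = c`: all the lines through almost all points with palindromic coordinates

Definitions used:
* in `Pool.Agent.Results.MP_bf63dc_nt.BoundedlyManyPowers` (a starting file): `Ok a b c`: `a, b ≥ 1`, and `a, b, c` are
  pairwise relatively prime and not all odd; `sol a b c y N`: the number of the prime solutions `(p, q)` of
  `a p - b q = c` with `y < q ≤ y + a N`; `sing a b c z`: the product over the primes `p ≤ z` of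
  `(1 - ω / p) / (1 - 1 / p) ^ 2`, where `ω = 1` if `p` divides `a b c`, and `ω = 2` otherwise; `Formula ε m X a b c y`:
  `sing a b c z` converges for `z → ∞` to some `G > 0`, and `|sol a b c y N - G N / log ^ 2 N| ≤ ε G N / log ^ 2 N` for all
  `N ≤ X` with `X ≤ m N`;
* in `Pool.Agent.Q26.PD.Ln`: `Lines ε m X D u w`: for ALL `a, b ≤ D` with `Ok a b (a u - b w)` the property
  `Formula ε m X a b (a u - b w) w` holds. The prime solutions counted are the points `(p, q) = (u + b t, w + a t)`,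
  `1 ≤ t ≤ N`, with prime coordinates on the line through `(u, w)` with the direction `(b, a)`.
-/

set_option autoImplicit false

namespace Pool.Agent.Results.MP_bf63dc_nt.LinesThroughPalindromicPoints

open Finset Pool.Agent.Q26.PD.Ln

/-- `v` is a palindrome with exactly `k` digits in base `b`: the digit number `j` (which is
`v / b ^ j % b`) is equal to the digit number `k - 1 - j`, for all `j < k`. -/
def IsPalindrome (b k v : ℕ) : Prop :=
  b ^ (k - 1) ≤ v ∧ v < b ^ k ∧ ∀ j < k, v / b ^ j % b = v / b ^ (k - 1 - j) % b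

open Classical in
/-- The palindromes with exactly `k` digits in base `b`. -/
noncomputable def palindromes (b k : ℕ) : Finset ℕ := (range (b ^ k)).filter (IsPalindrome b k)

open Classical in
/-- Let bases `b₁, b₂ ≥ 2`, integers `κ₁, κ₂ ≥ 1`, `D ≥ 1`, `B`, `m ≥ 1`, `U` and `ε > 0` be fixed. Let `X` be large, let
`X ≤ B bᵢ ^ kᵢ` and `bᵢ ^ kᵢ ≤ B X`, and let `0 ≤ c₁, c₂ ≤ B X` be arbitrary integers. All the pairs `(v₁, v₂)` of
palindromes, `vᵢ` with `kᵢ` digits in base `bᵢ`, with the exception of a proportion of at most `1 / log ^ U X` of the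
pairs, have the following property: through the point `(u, w) = (c₁ + κ₁ v₁, c₂ + κ₂ v₂)` ALL the lines `a p - b q = c`
(`c = a u - b w`) with `1 ≤ a, b ≤ D` for which `a, b, c` are pairwise relatively prime and not all odd contain the number
of prime points `(p, q)` with `w < q ≤ w + a N` which is predicted by the formula of Hardy and Littlewood, with a relative
error of at most `ε`, for all `N` between `X / m` and `X`. -/
theorem result (b₁ b₂ : ℕ) (hb₁ : 2 ≤ b₁) (hb₂ : 2 ≤ b₂) (κ₁ κ₂ : ℕ) (hκ₁ : 1 ≤ κ₁) (hκ₂ : 1 ≤ κ₂)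
    (D B m U : ℕ) (hD : 1 ≤ D) (hm : 1 ≤ m) (ε : ℝ) (hε : 0 < ε) :
    ∃ X₀ : ℕ, ∀ X, X₀ ≤ X → ∀ k₁ k₂ : ℕ, X ≤ B * b₁ ^ k₁ → b₁ ^ k₁ ≤ B * X → X ≤ B * b₂ ^ k₂ → b₂ ^ k₂ ≤ B * X →
      ∀ c₁ c₂ : ℕ, c₁ ≤ B * X → c₂ ≤ B * X →
      (((palindromes b₁ k₁ ×ˢ palindromes b₂ k₂).filter fun v =>
        ¬ Lines ε m X D (c₁ + κ₁ * v.1) (c₂ + κ₂ * v.2)).card : ℝ) ≤
      ((palindromes b₁ k₁ ×ˢ palindromes b₂ k₂).card : ℝ) / Real.log X ^ U := by
  obtain ⟨X₀, h⟩ := Pool.Agent.Q26.PD.lf_pal false 2 (by norm_num) (Fin.cons b₁ (fun _ => b₂))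
    (by rw [Fin.forall_fin_two]; exact ⟨hb₁, hb₂⟩) (Fin.cons (κ₁ : ℤ) (fun _ => (κ₂ : ℤ)))
    (by
      rw [Fin.forall_fin_two]
      constructor
      · show (κ₁ : ℤ) ≠ 0
        exact_mod_cast (by omega : κ₁ ≠ 0)
      · show (κ₂ : ℤ) ≠ 0
        exact_mod_cast (by omega : κ₂ ≠ 0)) D B m U hD hm ε hε
  refine ⟨X₀ + 1, fun X hX k₁ k₂ h1 h2 h3 h4 c₁ c₂ h5 h6 => ?_⟩
  have h7 := h X (by omega) (Fin.cons k₁ (fun _ => k₂)) (by rw [Fin.forall_fin_two]; exact ⟨⟨h1, h2⟩, ⟨h3, h4⟩⟩)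
    (Fin.cons (c₁ : ℤ) (fun _ => (c₂ : ℤ))) (by
      rw [Fin.forall_fin_two]
      constructor
      · show |(c₁ : ℤ)| ≤ _
        rw [abs_of_nonneg (by positivity)]
        exact_mod_cast h5
      · show |(c₂ : ℤ)| ≤ _
        rw [abs_of_nonneg (by positivity)]
        exact_mod_cast h6)
  obtain ⟨e1, e2⟩ := card_pairs (palindromes b₁ k₁) (palindromes b₂ k₂)
    (fun v => ¬ Lines ε m X D (c₁ + κ₁ * v.1) (c₂ + κ₂ * v.2))
    (fun v => ¬ Pool.Agent.Q26.PD.GoodL false ε m X D (fun i => (Fin.cons (c₁ : ℤ) (fun _ => (c₂ : ℤ)) : Fin 2 → ℤ) i +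
      (Fin.cons (κ₁ : ℤ) (fun _ => (κ₂ : ℤ)) : Fin 2 → ℤ) i * (v i : ℤ))) (fun v hq hp => by
      apply hp
      refine of_good ε m X D _ _ (by omega) _ ?_ ?_ (not_not.1 hq)
      · show (c₁ : ℤ) + κ₁ * (v 0 : ℤ) = ((c₁ + κ₁ * v 0 : ℕ) : ℤ)
        push_cast
        ring
      · show (c₂ : ℤ) + κ₂ * (v 1 : ℤ) = ((c₂ + κ₂ * v 1 : ℕ) : ℤ)
        push_cast
        ring)
  have e3 : (Fintype.piFinset fun i => Pool.Agent.TH872.Mir.Pals ((Fin.cons b₁ (fun _ => b₂) : Fin 2 → ℕ) i)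
      ((Fin.cons k₁ (fun _ => k₂) : Fin 2 → ℕ) i)) =
      Fintype.piFinset (Fin.cons (palindromes b₁ k₁) (fun _ => palindromes b₂ k₂) : Fin 2 → Finset ℕ) := by
    congr 1
    funext i
    revert i
    rw [Fin.forall_fin_two]
    exact ⟨rfl, rfl⟩
  rw [e3, e2] at h7
  have e4 := (Nat.cast_le (α := ℝ)).2 e1
  refine le_trans (le_of_eq ?_) (le_trans e4 (le_trans (le_of_eq ?_) h7))
  · congr!
  · congr!

end Pool.Agent.Results.MP_bf63dc_nt.LinesThroughPalindromicPoints
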