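import Pool.Agent.Q48.RD.MomS2

/-!
# All moments of the number of prime solutions of `a p - b q = c` in short intervals, at integers with restricted digits

Let `a, b ≥ 1` and `c ≠ 0` be pairwise coprime and not all odd, `a b > 1`, and let `a m₀ - b n₀ = c` with natural numbers `m₀, n₀`. The
solutions of `a m - b n = c` are `(m₀ + b t, n₀ + a t)`. We count the `t` in `(x, x + T]` for which both numbers are primes (or almost
primes).

Let `g ≥ 2` be a base and `K` a large number of digits. For every `i < K` let `A i` be an arbitrary set of digits, such that the number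
`|A 0| ⋯ |A (K - 1)|` of the integers `s < g ^ K` whose `i`-th digit belongs to `A i` for all `i < K` is at least `exp (- δ K) g ^ K`.
Let `N ≤ g ^ (E K)` be arbitrary. We consider the numbers `x = N + s` with these `s`: they form a set with only
`y ^ (1 - δ')` elements in an interval of length `y = g ^ K`, which may be an arbitrarily small power of `x`.

Let `k ≥ 1` and `T ≤ g ^ (E K)`. The conjecture of Hardy and Littlewood, applied to the `2 k` linear forms
`m₀ + b (x + h_i), n₀ + a (x + h_i)` and averaged over the shifts `h_1, …, h_k ≤ T`, predicts that the mean value of the `k`-th power of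
the number of the prime solutions with `t` in `(x, x + T]` has the order of magnitude of `(T / K ^ 2) ^ k` for `T ≥ K ^ 2` and of
`T / K ^ 2` for `T ≤ K ^ 2`. We prove

(1) the upper bound of this order for the prime solutions, for `x` in all these sets;

(2) the exact order of magnitude for the almost prime solutions;

(3) that a positive proportion (for `T ≤ K ^ 2`: the expected proportion `T / K ^ 2`) of the intervals `(x, x + T]` contains the
expected number of almost prime solutions.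
-/

set_option autoImplicit false

namespace Pool.Agent.Results.MP_bf63dc_nt.MomentsInShortIntervals

open Filter Finset
open Pool.Agent.Q315.RD Pool.Agent.Q48.RD

/-- The hypotheses of the problem: `a, b ≥ 1` and `c ≠ 0` are pairwise coprime and not all odd. -/
def Good (a b : ℕ) (c : ℤ) : Prop :=
  1 ≤ a ∧ 1 ≤ b ∧ c ≠ 0 ∧ IsCoprime (a : ℤ) b ∧ IsCoprime (a : ℤ) c ∧ IsCoprime (b : ℤ) c ∧ ¬ (Odd (a : ℤ) ∧ Odd (b : ℤ) ∧ Odd c)

open Classical in
/-- The number of the `t` with `x < t ≤ x + T` for which `m₀ + b t` and `n₀ + a t` are primes. -/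
noncomputable def primesIn (a b m₀ n₀ x T : ℕ) : ℕ := ((Ioc x (x + T)).filter fun t => (m₀ + b * t).Prime ∧ (n₀ + a * t).Prime).card

open Classical in
/-- The number of the `t` with `x < t ≤ x + T` for which `m₀ + b t` and `n₀ + a t` have at most `r` prime factors, all larger than
`y ^ (1 / r)`. -/
noncomputable def almostPrimesIn (y r a b m₀ n₀ x T : ℕ) : ℕ :=
  ((Ioc x (x + T)).filter fun t => AlmostPrime y r (m₀ + b * t) ∧ AlmostPrime y r (n₀ + a * t)).card

open Classical in
/-- The integers `s < g ^ K` whose `i`-th digit belongs to `A i` for all `i < K`. -/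
noncomputable def digitSet (g K : ℕ) (A : ℕ → Finset ℕ) : Finset ℕ := (range (g ^ K)).filter (HasDigits g K A)

/-- The predicted order of magnitude of the mean value of the `k`-th power: `T / K ^ 2` for `T ≤ K ^ 2` and `(T / K ^ 2) ^ k` for
`T ≥ K ^ 2`. -/
noncomputable def order (k T K : ℕ) : ℝ := min 1 ((T : ℝ) / (K : ℝ) ^ 2) * max 1 ((T : ℝ) / (K : ℝ) ^ 2) ^ k

/-- the two linear forms -/
def F (a b m₀ n₀ : ℕ) (j : Fin 2) (t : ℕ) : ℕ := if j = 0 then m₀ + b * t else n₀ + a * t

lemma choose_t {p : ℕ} {u v : ℤ} (h : ¬ (p : ℤ) ∣ u) : ∃ t : ℤ, ¬ (p : ℤ) ∣ u * t + v := by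
  by_cases h0 : (p : ℤ) ∣ v
  · refine ⟨1, fun h1 => h ?_⟩
    rw [mul_one] at h1
    exact (dvd_add_left h0).1 h1
  · exact ⟨0, by rwa [mul_zero, zero_add]⟩

lemma adm {a b : ℕ} {c : ℤ} (h : Good a b c) {m₀ n₀ : ℕ} (hs : (a : ℤ) * m₀ - b * n₀ = c) (hb : IsCoprime (b : ℤ) (m₀ : ℤ))
    (ha : IsCoprime (a : ℤ) (n₀ : ℤ)) :
    AdmZ (fun j : Fin 2 => (((if j = 0 then b else a : ℕ) : ℕ) : ℤ)) (fun j => ((if j = 0 then m₀ else n₀ : ℕ) : ℤ)) := by
  obtain ⟨ha1, hb1, hc0, hab, hac, hbc, hodd⟩ := h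
  intro p hp
  have hpz := Nat.prime_iff_prime_int.1 hp
  have key : ∀ t : ℤ, ¬ (p : ℤ) ∣ b * t + m₀ → ¬ (p : ℤ) ∣ a * t + n₀ →
      ∃ n : ℤ, ∀ j : Fin 2, ¬ (p : ℤ) ∣ (((if j = 0 then b else a : ℕ) : ℕ) : ℤ) * n + ((if j = 0 then m₀ else n₀ : ℕ) : ℤ) := by
    intro t h1 h2
    refine ⟨t, fun j => ?_⟩
    fin_cases j
    · simpa using h1
    · simpa using h2
  by_cases hpa : (p : ℤ) ∣ a
  · have hpb : ¬ (p : ℤ) ∣ b := fun h => hpz.not_isUnit (hab.isUnit_of_dvd' hpa h)
    have hpn : ¬ (p : ℤ) ∣ n₀ := fun h => hpz.not_isUnit (ha.isUnit_of_dvd' hpa h)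
    obtain ⟨t, ht⟩ := choose_t (v := (m₀ : ℤ)) hpb
    exact key t ht fun h => hpn ((dvd_add_right (hpa.mul_right t)).1 h)
  by_cases hpb : (p : ℤ) ∣ b
  · have hpm : ¬ (p : ℤ) ∣ m₀ := fun h => hpz.not_isUnit (hb.isUnit_of_dvd' hpb h)
    obtain ⟨t, ht⟩ := choose_t (v := (n₀ : ℤ)) hpa
    exact key t (fun h => hpm ((dvd_add_right (hpb.mul_right t)).1 h)) ht
  by_cases hp2 : 2 < p
  · exact adm_bigZ _ _ hp hp2 fun j => by
      fin_cases j
      · simpa using hpb
      · simpa using hpa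
  · have hp2' : p = 2 := le_antisymm (by omega) hp.two_le
    subst hp2'
    have hao : Odd (a : ℤ) := Int.not_even_iff_odd.1 fun h => hpa (by exact_mod_cast h.two_dvd)
    have hbo : Odd (b : ℤ) := Int.not_even_iff_odd.1 fun h => hpb (by exact_mod_cast h.two_dvd)
    have hce : Even c := Int.not_odd_iff_even.1 fun h => hodd ⟨hao, hbo, h⟩
    obtain ⟨t, ht⟩ := choose_t (v := (m₀ : ℤ)) hpb
    refine key t ht fun h => ht ?_
    have h1 : Even ((a : ℤ) * t + n₀) := (even_iff_two_dvd).2 (by exact_mod_cast h)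
    have h2 : (a : ℤ) * (b * t + m₀) = b * (a * t + n₀) + c := by rw [← hs]; ring
    have h3 : Even ((a : ℤ) * (b * t + m₀)) := by
      rw [h2]
      exact (h1.mul_left _).add hce
    have h4 : Even ((b : ℤ) * t + m₀) := by
      rcases Int.even_mul.1 h3 with h5 | h5
      · exact absurd h5 (Int.not_even_iff_odd.2 hao)
      · exact h5
    exact_mod_cast h4.two_dvd

/-- **All moments of the number of prime solutions in short intervals at integers with restricted digits.** -/
theorem result (a b : ℕ) (c : ℤ) (h : Good a b c) (hab : 1 < a * b) (m₀ n₀ : ℕ) (hs : (a : ℤ) * m₀ - b * n₀ = c) (k : ℕ) (hk : 1 ≤ k)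
    (E : ℕ) :
    ∃ δ : ℝ, 0 < δ ∧ ∃ r₀ : ℕ, 2 ≤ r₀ ∧ ∀ r : ℕ, r₀ ≤ r → ∀ g : ℕ, 2 ≤ g → ∃ κ C : ℝ, 0 < κ ∧ 0 < C ∧
      ∀ᶠ K : ℕ in atTop, ∀ N T : ℕ, N ≤ g ^ (E * K) → 1 ≤ T → T ≤ g ^ (E * K) →
        ∀ A : ℕ → Finset ℕ, (∀ i < K, A i ⊆ range g) → (g : ℝ) ^ K ≤ Real.exp (δ * K) * choices K A →
        -- the prime solutions
        ∑ s ∈ digitSet g K A, (primesIn a b m₀ n₀ (N + s) T : ℝ) ^ k ≤ C * order k T K * choices K A ∧
        -- the almost prime solutions
        ∑ s ∈ digitSet g K A, (almostPrimesIn (g ^ K) r a b m₀ n₀ (N + s) T : ℝ) ^ k ≤ C * order k T K * choices K A ∧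
        (g ≤ T →
          κ * order k T K * choices K A ≤ ∑ s ∈ digitSet g K A, (almostPrimesIn (g ^ K) r a b m₀ n₀ (N + s) T : ℝ) ^ k ∧
          κ * min 1 ((T : ℝ) / (K : ℝ) ^ 2) * choices K A ≤
            (((digitSet g K A).filter fun s => κ * max 1 ((T : ℝ) / (K : ℝ) ^ 2) ≤
              almostPrimesIn (g ^ K) r a b m₀ n₀ (N + s) T).card : ℝ)) := by
  classical
  have hb : IsCoprime (b : ℤ) (m₀ : ℤ) := by
    have h1 : IsCoprime (b : ℤ) ((a : ℤ) * m₀) := by
      have e : (a : ℤ) * m₀ = c + b * n₀ := by rw [← hs]; ring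
      rw [e]
      exact IsCoprime.add_mul_left_right h.2.2.2.2.2.1 _
    exact h1.of_mul_right_right
  have ha : IsCoprime (a : ℤ) (n₀ : ℤ) := by
    have h1 : IsCoprime (a : ℤ) ((b : ℤ) * n₀) := by
      have e : (b : ℤ) * n₀ = -c + a * m₀ := by rw [← hs]; ring
      rw [e]
      exact IsCoprime.add_mul_left_right (h.2.2.2.2.1.neg_right) _
    exact h1.of_mul_right_right
  have hcop : IsCoprime ((a : ℤ) * b) c := IsCoprime.mul_left h.2.2.2.2.1 h.2.2.2.2.2.1
  have hnd : ¬ ((a : ℤ) * b) ∣ c := by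
    intro hd
    have h1 : IsUnit ((a : ℤ) * b) := hcop.isUnit_of_dvd' dvd_rfl hd
    rcases Int.isUnit_iff.1 h1 with h2 | h2
    · have : ((a * b : ℕ) : ℤ) = 1 := by push_cast; exact h2
      have h3 : a * b = 1 := by exact_mod_cast this
      omega
    · have : ((a * b : ℕ) : ℤ) = -1 := by push_cast; exact h2
      omega
  obtain ⟨δ, hδ, r0, hr0, H⟩ := sysMoments (fun j : Fin 2 => if j = 0 then b else a) (fun j => ((if j = 0 then m₀ else n₀ : ℕ) : ℤ))
    (fun j => by
      fin_cases j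
      · exact h.2.1
      · exact h.1)
    (fun j => by
      fin_cases j
      · simpa using hb
      · simpa using ha)
    (fun j j' hjj d h0 => hnd (by
      fin_cases j <;> fin_cases j'
      · exact absurd rfl hjj
      · simp only [Fin.zero_eta, ↓reduceIte, Fin.mk_one, one_ne_zero] at h0
        refine ⟨d, ?_⟩
        rw [← hs]
        push_cast at h0
        linarith
      · simp only [Fin.zero_eta, ↓reduceIte, Fin.mk_one, one_ne_zero] at h0
        refine ⟨-d, ?_⟩
        rw [← hs]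
        push_cast at h0
        linarith
      · exact absurd rfl hjj))
    (adm h hs hb ha)
    (F a b m₀ n₀) (fun j n hn => by
      unfold F
      fin_cases j
      · simp only [Fin.zero_eta, ↓reduceIte]
        push_cast
        ring
      · simp only [Fin.mk_one, one_ne_zero, ↓reduceIte]
        push_cast
        ring) k hk E
  refine ⟨δ, hδ, r0, hr0, fun r hr g hg => ?_⟩
  obtain ⟨κ, C, hκ, hC, H⟩ := H r hr g hg
  refine ⟨κ, C, hκ, hC, ?_⟩
  filter_upwards [H] with K HK
  intro N T hN hT1 hT A hA1 hA2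
  obtain ⟨h1, h2, h3⟩ := HK N T hN hT1 hT A ⟨hA1, hA2⟩
  have e1 : ∀ x, primesIn a b m₀ n₀ x T ≤ numIn (fun n => ∀ j, (F a b m₀ n₀ j n).Prime) x T := by
    intro x
    have e : primesIn a b m₀ n₀ x T = numIn (fun t => (m₀ + b * t).Prime ∧ (n₀ + a * t).Prime) x T := by
      unfold primesIn numIn
      congr!
    rw [e]
    apply numIn_mono
    intro t _ ht j
    fin_cases j
    · exact ht.1
    · exact ht.2
  have e2 : ∀ x, almostPrimesIn (g ^ K) r a b m₀ n₀ x T = numIn (fun n => ∀ j, AlmostPrime (g ^ K) r (F a b m₀ n₀ j n)) x T := by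
    intro x
    have e : almostPrimesIn (g ^ K) r a b m₀ n₀ x T =
      numIn (fun t => AlmostPrime (g ^ K) r (m₀ + b * t) ∧ AlmostPrime (g ^ K) r (n₀ + a * t)) x T := by
      unfold almostPrimesIn numIn
      congr!
    rw [e]
    apply le_antisymm
    · apply numIn_mono
      intro t _ ht j
      fin_cases j
      · exact ht.1
      · exact ht.2
    · apply numIn_mono
      intro t _ ht
      exact ⟨ht 0, ht 1⟩
  simp only [e2]
  refine ⟨le_trans ?_ h1, h2, fun hgT => ⟨(h3 hgT).1, (h3 hgT).2.trans (le_of_eq ?_)⟩⟩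
  · apply sum_le_sum
    intro t _
    have := e1 (N + t)
    gcongr
  · unfold count digitSet
    rw [filter_filter]

end Pool.Agent.Results.MP_bf63dc_nt.MomentsInShortIntervals
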