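import Pool.Agent.Y816.PD.UniL

/-!
# The equation `a m - b n = c` in almost primes, for ALL large coefficients, at parameters with restricted digits

Let `g ≥ 2` be a base and `K` a large number of digits. For every `i < K` let `A i` be an arbitrary non-empty set of digits. Nothing
is assumed about these sets except that they are not too small on average: the number `|A 0| ⋯ |A (K - 1)|` of the integers
`t < g ^ K` whose `i`-th digit belongs to `A i` for all `i < K` is at least `exp (- c₀ K) g ^ K`, where `c₀ > 0` does not depend on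
the base. (For example, a digit is missing everywhere and the base is large; or the digits at an arbitrary set of at most `c' K`
places are prescribed.)

Let `a, b ≥ 1` and `c ≠ 0` satisfy the hypotheses of the question (pairwise relatively prime and not all odd), and let `(m₀, n₀)` be
ANY solution of `a m₀ - b n₀ = c` in integers `m₀, n₀ ≥ 0`. The numbers `a`, `b`, `m₀`, `n₀` may be as large as `g ^ (E K)`, an
arbitrary power of the size `g ^ K` of the parameter `t`; so we look for solutions in a very short interval. The solutions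
`m = m₀ + b t`, `n = n₀ + a t` of `a m - b n = c` with `t < g ^ K` having digits in the sets `A i`, and such that `m` and `n` have at
most `r` prime factors, all greater than `g ^ (K / r)`, are counted up to a constant factor: their number is at least
`κ V |A 0| ⋯ |A (K - 1)|`, where `V` is the product of the factors `1 - 1 / p` over the primes `p ≤ g ^ K` dividing `a b c` and of the
factors `1 - 2 / p` over the other primes `p ≤ g ^ K` (the expected order), unless there is an obvious obstruction (no digit `d` in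
`A 0` such that `m₀ + b d` and `n₀ + a d` are prime to `g`). The number of those for which `m` and `n` are primes is at most
`C V |A 0| ⋯ |A (K - 1)|`. The constants are independent of `a, b, c, m₀, n₀` and of the sets `A i`.

Proof. The theorem on almost prime values of polynomials at integers with restricted digits, uniform in the polynomial, of the
starting library (`Pool.Agent.Y816.PD.uni_fun`), applied to the polynomial `(m₀ + b X) (n₀ + a X)`.
-/

set_option autoImplicit false

namespace Pool.Agent.Results.MP_bf63dc_nt.RestrictedDigits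

open Filter Finset

/-- The `i`-th digit of `t` in base `g` (counted from the right, beginning with `0`) belongs to `A i` for all `i < K`. -/
def HasDigits (g K : ℕ) (A : ℕ → Finset ℕ) (t : ℕ) : Prop := ∀ i < K, t / g ^ i % g ∈ A i

/-- The number of the choices of `K` digits in the sets `A i`. -/
def choices (K : ℕ) (A : ℕ → Finset ℕ) : ℕ := ∏ i ∈ range K, (A i).card

/-- `m` has at most `r` prime factors (counted with multiplicity), and all of them are larger than `y ^ (1 / r)`. -/
def AlmostPrime (y r m : ℕ) : Prop :=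
  (∀ p : ℕ, p.Prime → p ∣ m → y < p ^ r) ∧ m.primeFactorsList.length ≤ r

/-- The product of `1 - 1 / p` over the primes `p ≤ y` dividing `N` and of `1 - 2 / p` over the other primes `p ≤ y`. -/
noncomputable def density (N : ℤ) (y : ℕ) : ℝ :=
  ∏ p ∈ (Icc 1 y).filter Nat.Prime, (1 - (if (p : ℤ) ∣ N then 1 else 2) / (p : ℝ))

open Classical in
/-- The number of the `t < g ^ K` with the digits `A i` which have the property `P`. -/
noncomputable def count (g K : ℕ) (A : ℕ → Finset ℕ) (P : ℕ → Prop) : ℕ :=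
  ((range (g ^ K)).filter fun t => HasDigits g K A t ∧ P t).card

/-- The hypotheses of the question: `a, b ≥ 1` and `c ≠ 0` are pairwise relatively prime and not all odd. -/
structure Good (a b : ℕ) (c : ℤ) : Prop where
  a_pos : 1 ≤ a
  b_pos : 1 ≤ b
  c_ne : c ≠ 0
  ab : IsCoprime (a : ℤ) b
  ac : IsCoprime (a : ℤ) c
  bc : IsCoprime (b : ℤ) c
  not_odd : ¬ (Odd a ∧ Odd b ∧ Odd c)

lemma ND_le_count {g K : ℕ} {A : ℕ → Finset ℕ} {S : Set ℕ} {P : ℕ → Prop} (h : ∀ n < g ^ K, n ∈ S → P n) :
    Pool.Agent.Y816.PD.ND g K A S ≤ count g K A P := by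
  classical
  unfold Pool.Agent.Y816.PD.ND count
  apply card_le_card
  intro n hn
  have h1 := mem_filter.1 hn
  exact mem_filter.2 ⟨h1.1, h1.2.1, h n (mem_range.1 h1.1) h1.2.2⟩

lemma count_le_ND {g K : ℕ} {A : ℕ → Finset ℕ} {S : Set ℕ} {P : ℕ → Prop} (h : ∀ n < g ^ K, P n → n ∈ S) :
    count g K A P ≤ Pool.Agent.Y816.PD.ND g K A S := by
  classical
  unfold Pool.Agent.Y816.PD.ND count
  apply card_le_card
  intro n hn
  have h1 := mem_filter.1 hn
  exact mem_filter.2 ⟨h1.1, h1.2.1, h n (mem_range.1 h1.1) h1.2.2⟩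

open Pool.Agent.Y816.PD in
lemma choices_eq (K : ℕ) (A : ℕ → Finset ℕ) : (choices K A : ℝ) = NA K A := by
  unfold choices NA
  push_cast
  rfl

lemma card_range_zmod (p : ℕ) [Fact p.Prime] (Q : ZMod p → Prop) [DecidablePred Q] (R : ℕ → Prop) [DecidablePred R]
    (h : ∀ n : ℕ, R n ↔ Q (n : ZMod p)) : ((range p).filter R).card = (univ.filter Q).card := by
  apply card_nbij' (fun n : ℕ => (n : ZMod p)) ZMod.val
  · intro n hn
    have h1 := mem_filter.1 (mem_coe.1 hn)
    exact mem_coe.2 (mem_filter.2 ⟨mem_univ _, (h n).1 h1.2⟩)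
  · intro x hx
    have h1 := mem_filter.1 (mem_coe.1 hx)
    exact mem_coe.2 (mem_filter.2 ⟨mem_range.2 (ZMod.val_lt x), (h _).2 (by rw [ZMod.natCast_zmod_val]; exact h1.2)⟩)
  · intro n hn
    have h1 := mem_filter.1 (mem_coe.1 hn)
    exact ZMod.val_cast_of_lt (mem_range.1 h1.1)
  · intro x _
    exact ZMod.natCast_zmod_val x

lemma not_dvd_of_coprime {p : ℕ} (hp : p.Prime) {x y : ℤ} (h : IsCoprime x y) (hx : (p : ℤ) ∣ x) : ¬ (p : ℤ) ∣ y := by
  intro hy
  exact (Nat.prime_iff_prime_int.1 hp).not_isUnit (h.isUnit_of_dvd' hx hy)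

lemma card_roots {p a b : ℕ} {c : ℤ} {m₀ n₀ : ℕ} (hp : p.Prime) (hg : Good a b c)
    (he : (a : ℤ) * m₀ - b * n₀ = c) :
    ((range p).filter (fun t : ℕ => (p : ℤ) ∣ ((m₀ : ℤ) + b * t) * (n₀ + a * t))).card =
      if (p : ℤ) ∣ (a : ℤ) * b * c then 1 else 2 := by
  classical
  have : Fact p.Prime := ⟨hp⟩
  have hpz := Nat.prime_iff_prime_int.1 hp
  have key : ∀ t : ℕ, (p : ℤ) ∣ ((m₀ : ℤ) + b * t) * (n₀ + a * t) ↔
      ((m₀ : ZMod p) + b * (t : ZMod p)) * (n₀ + a * (t : ZMod p)) = 0 := by
    intro t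
    rw [← ZMod.intCast_zmod_eq_zero_iff_dvd]
    push_cast
    rfl
  refine (card_range_zmod p (fun x : ZMod p => ((m₀ : ZMod p) + b * x) * (n₀ + a * x) = 0) _ key).trans ?_
  have heF : (a : ZMod p) * m₀ - b * n₀ = ((c : ℤ) : ZMod p) := by
    rw [← he]
    push_cast
    rfl
  have hz : ∀ z : ℕ, ((z : ZMod p) = 0) ↔ (p : ℤ) ∣ (z : ℤ) := by
    intro z
    rw [← ZMod.intCast_zmod_eq_zero_iff_dvd]
    push_cast
    rfl
  have hzc : (((c : ℤ) : ZMod p) = 0) ↔ (p : ℤ) ∣ c := ZMod.intCast_zmod_eq_zero_iff_dvd c p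
  by_cases ha : (a : ZMod p) = 0
  · have hpa := (hz a).1 ha
    have hb : (b : ZMod p) ≠ 0 := fun h => not_dvd_of_coprime hp hg.ab hpa ((hz b).1 h)
    have hc : ((c : ℤ) : ZMod p) ≠ 0 := fun h => not_dvd_of_coprime hp hg.ac hpa (hzc.1 h)
    have hn : (n₀ : ZMod p) ≠ 0 := by
      intro h
      apply hc
      rw [← heF, ha, h]
      ring
    rw [if_pos ((hpa.mul_right _).mul_right _)]
    have : (univ.filter fun x : ZMod p => ((m₀ : ZMod p) + b * x) * (n₀ + a * x) = 0) = {-(m₀ : ZMod p) / b} := by
      ext x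
      rw [mem_filter, mem_singleton, ha, zero_mul, add_zero, mul_eq_zero, or_iff_left hn, eq_div_iff hb]
      simp only [mem_univ, true_and]
      constructor <;> intro h <;> linear_combination h
    rw [this, card_singleton]
  · by_cases hb : (b : ZMod p) = 0
    · have hpb := (hz b).1 hb
      have hc : ((c : ℤ) : ZMod p) ≠ 0 := fun h => not_dvd_of_coprime hp hg.bc hpb (hzc.1 h)
      have hm : (m₀ : ZMod p) ≠ 0 := by
        intro h
        apply hc
        rw [← heF, hb, h]
        ring
      rw [if_pos ((hpb.mul_left _).mul_right _)]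
      have : (univ.filter fun x : ZMod p => ((m₀ : ZMod p) + b * x) * (n₀ + a * x) = 0) = {-(n₀ : ZMod p) / a} := by
        ext x
        rw [mem_filter, mem_singleton, hb, zero_mul, add_zero, mul_eq_zero, or_iff_right hm, eq_div_iff ha]
        simp only [mem_univ, true_and]
        constructor <;> intro h <;> linear_combination h
      rw [this, card_singleton]
    · have h1 : (univ.filter fun x : ZMod p => ((m₀ : ZMod p) + b * x) * (n₀ + a * x) = 0) =
          {-(m₀ : ZMod p) / b, -(n₀ : ZMod p) / a} := by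
        ext x
        rw [mem_filter, mem_insert, mem_singleton, mul_eq_zero, eq_div_iff hb, eq_div_iff ha]
        simp only [mem_univ, true_and]
        constructor
        · rintro (h | h)
          · left
            linear_combination h
          · right
            linear_combination h
        · rintro (h | h)
          · left
            linear_combination h
          · right
            linear_combination h
      have h2 : (-(m₀ : ZMod p) / b = -(n₀ : ZMod p) / a) ↔ (p : ℤ) ∣ c := by
        rw [div_eq_div_iff hb ha, ← hzc, ← heF]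
        constructor
        · intro h
          linear_combination -h
        · intro h
          linear_combination -h
      have hpa : ¬ (p : ℤ) ∣ (a : ℤ) := fun h => ha ((hz a).2 h)
      have hpb : ¬ (p : ℤ) ∣ (b : ℤ) := fun h => hb ((hz b).2 h)
      rw [h1]
      by_cases hc : (p : ℤ) ∣ c
      · rw [if_pos (hc.mul_left _), h2.2 hc]
        simp
      · rw [if_neg, card_pair (fun h => hc (h2.1 h))]
        intro h
        rcases hpz.dvd_or_dvd h with h3 | h3
        · rcases hpz.dvd_or_dvd h3 with h4 | h4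
          · exact hpa h4
          · exact hpb h4
        · exact hc h3

open Pool.Agent.Y816.PD in
lemma density_eq {a b : ℕ} {c : ℤ} {m₀ n₀ : ℕ} (hg : Good a b c) (he : (a : ℤ) * m₀ - b * n₀ = c) (y : ℕ) :
    WG (fun t : ℕ => ((m₀ : ℤ) + b * t) * (n₀ + a * t)) y = density ((a : ℤ) * b * c) y := by
  classical
  unfold WG density
  apply prod_congr rfl
  intro p hp
  rw [mem_filter] at hp
  have h1 := card_roots hp.2 hg he
  have h2 : (((range p).filter (fun t : ℕ => (p : ℤ) ∣ ((m₀ : ℤ) + b * t) * (n₀ + a * t))).card : ℝ) =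
      if (p : ℤ) ∣ (a : ℤ) * b * c then 1 else 2 := by
    rw [h1]
    split_ifs <;> simp
  rw [← h2]

/-- **The equation `a m - b n = c` in almost primes, uniformly in `a`, `b`, `c`, at parameters with restricted digits.** -/
theorem result (E : ℕ) :
    ∃ c₀ : ℝ, 0 < c₀ ∧ ∃ r₀ : ℕ, 2 ≤ r₀ ∧ ∀ r : ℕ, r₀ ≤ r → ∀ g : ℕ, 2 ≤ g → ∃ κ C : ℝ, 0 < κ ∧ 0 < C ∧
      ∀ᶠ K : ℕ in atTop, ∀ (a b : ℕ) (c : ℤ), Good a b c → ∀ m₀ n₀ : ℕ, (a : ℤ) * m₀ - b * n₀ = c →
        a ≤ g ^ (E * K) → b ≤ g ^ (E * K) → m₀ ≤ g ^ (E * K) → n₀ ≤ g ^ (E * K) →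
        ∀ A : ℕ → Finset ℕ, (∀ i < K, A i ⊆ range g) → (g : ℝ) ^ K ≤ Real.exp (c₀ * K) * choices K A →
          ((∃ d ∈ A 0, (m₀ + b * d).Coprime g ∧ (n₀ + a * d).Coprime g) →
            κ * density (a * b * c) (g ^ K) * choices K A ≤
              count g K A fun t => AlmostPrime (g ^ K) r (m₀ + b * t) ∧ AlmostPrime (g ^ K) r (n₀ + a * t)) ∧
          (count g K A (fun t => (m₀ + b * t).Prime ∧ (n₀ + a * t).Prime) : ℝ) ≤
            C * density (a * b * c) (g ^ K) * choices K A := by
  classical
  obtain ⟨c₀, hc₀, r0, hr0, h⟩ := Pool.Agent.Y816.PD.uni_fun 2 (2 * (E + 2)) (by norm_num)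
  refine ⟨c₀, hc₀, r0, hr0, fun r hr g hg => ?_⟩
  obtain ⟨κ, C, hκ, hC, h1⟩ := h r hr g hg
  refine ⟨κ, C, hκ, hC, ?_⟩
  filter_upwards [h1, eventually_ge_atTop (r + 1)] with K hK hK2
  intro a b c hgood m₀ n₀ he ha hb hm₀ hn₀ A hA hprod
  obtain ⟨G, hG⟩ : ∃ G : ℕ → ℤ, G = fun t : ℕ => ((m₀ : ℤ) + b * t) * (n₀ + a * t) := ⟨_, rfl⟩
  have hgK : 1 ≤ g ^ K := Nat.one_le_pow _ _ (by omega)
  have hGnat : ∀ t : ℕ, G t = (((m₀ + b * t) * (n₀ + a * t) : ℕ) : ℤ) := by
    intro t
    rw [hG]
    push_cast
    ring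
  have h2r : 2 ^ r ≤ g ^ K :=
    (Nat.pow_le_pow_left hg r).trans (Nat.pow_le_pow_right (by omega) (by omega))
  have hsz : ∀ x y t : ℕ, x ≤ g ^ (E * K) → y ≤ g ^ (E * K) → t < g ^ K → x + y * t ≤ g ^ ((E + 2) * K) := by
    intro x y t hx hy ht
    have e1 : x + y * t ≤ g ^ (E * K) * g ^ K := by
      calc x + y * t ≤ g ^ (E * K) + g ^ (E * K) * t := Nat.add_le_add hx (Nat.mul_le_mul_right _ hy)
        _ = g ^ (E * K) * (t + 1) := by ring
        _ ≤ g ^ (E * K) * g ^ K := Nat.mul_le_mul_left _ ht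
    refine e1.trans ?_
    rw [← pow_add]
    exact Nat.pow_le_pow_right (by omega) (by nlinarith)
  obtain ⟨hlow, hup⟩ := hK G ⟨(Polynomial.C (b : ℤ) * Polynomial.X + Polynomial.C (m₀ : ℤ)) *
      (Polynomial.C (a : ℤ) * Polynomial.X + Polynomial.C (n₀ : ℤ)), by
      refine (Polynomial.natDegree_mul_le).trans ?_
      exact Nat.add_le_add Polynomial.natDegree_linear_le Polynomial.natDegree_linear_le,
      fun t => by rw [hG]; simp; ring⟩
    (fun p hp => by
      by_contra hcon
      push Not at hcon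
      have h3 := card_roots hp hgood he
      have h4 : (range p).filter (fun t : ℕ => (p : ℤ) ∣ ((m₀ : ℤ) + b * t) * (n₀ + a * t)) = range p := by
        apply filter_true_of_mem
        intro t _
        have := hcon t
        rw [hG] at this
        exact this
      rw [h4, card_range] at h3
      split_ifs at h3 with h5
      · exact hp.one_lt.ne' h3
      · subst h3
        apply h5
        have h6 := hgood.not_odd
        rw [not_and_or, not_and_or, Nat.not_odd_iff_even, Nat.not_odd_iff_even, Int.not_odd_iff_even] at h6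
        rcases h6 with h6 | h6 | h6
        · exact ((Int.natCast_dvd_natCast.2 h6.two_dvd).mul_right _).mul_right _
        · exact ((Int.natCast_dvd_natCast.2 h6.two_dvd).mul_left _).mul_right _
        · exact (h6.two_dvd).mul_left _)
    (fun t ht => by
      rw [hGnat, Int.natAbs_natCast]
      calc (m₀ + b * t) * (n₀ + a * t) ≤ g ^ ((E + 2) * K) * g ^ ((E + 2) * K) :=
            Nat.mul_le_mul (hsz _ _ _ hm₀ hb ht) (hsz _ _ _ hn₀ ha ht)
        _ = g ^ (2 * (E + 2) * K) := by rw [← pow_add]; congr 1; ring)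
    A hA (by rw [← choices_eq]; exact hprod)
  rw [hG, density_eq hgood he, ← choices_eq, ← hG] at hlow hup
  constructor
  · rintro ⟨d, hd, hd1, hd2⟩
    have h3 := hlow ⟨d, hd, by
      rw [hGnat, Int.natAbs_natCast]
      exact Nat.Coprime.mul_left hd1 hd2⟩
    rw [mul_right_comm]
    refine h3.trans (Nat.cast_le.2 ?_)
    refine ND_le_count fun t hn1 hn => ?_
    obtain ⟨hn3, hn4⟩ := hn
    have hne : (m₀ + b * t) * (n₀ + a * t) ≠ 0 := by
      intro h0
      have h4 := hn3 2 Nat.prime_two (by rw [hGnat, h0]; simp)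
      omega
    have hx : m₀ + b * t ≠ 0 := left_ne_zero_of_mul hne
    have hy : n₀ + a * t ≠ 0 := right_ne_zero_of_mul hne
    rw [hGnat] at hn3 hn4
    rw [Int.natAbs_natCast, (Nat.perm_primeFactorsList_mul hx hy).length_eq, List.length_append] at hn4
    refine ⟨⟨fun p hp hpn => ?_, by omega⟩, fun p hp hpn => ?_, by omega⟩
    · exact hn3 p hp (Int.natCast_dvd_natCast.2 (hpn.mul_right _))
    · exact hn3 p hp (Int.natCast_dvd_natCast.2 (hpn.mul_left _))
  · rw [mul_right_comm]
    refine le_trans (Nat.cast_le.2 ?_) hup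
    refine count_le_ND fun t hn1 hn => ?_
    obtain ⟨hn3, hn4⟩ := hn
    intro p hp hpn
    rw [hGnat, Int.natCast_dvd_natCast] at hpn
    have hat : t ≤ a * t := Nat.le_mul_of_pos_left t hgood.a_pos
    have hbt : t ≤ b * t := Nat.le_mul_of_pos_left t hgood.b_pos
    have h5 : t ≤ p := by
      rcases (hp.dvd_mul).1 hpn with h6 | h6
      · rw [(Nat.prime_dvd_prime_iff_eq hp hn3).1 h6]
        omega
      · rw [(Nat.prime_dvd_prime_iff_eq hp hn4).1 h6]
        omega
    exact lt_of_le_of_lt h5 (lt_self_pow₀ hp.one_lt (by omega))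

end Pool.Agent.Results.MP_bf63dc_nt.RestrictedDigits
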